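import Pool.Agent.BOX.StmtsT

/-!
# Squad BOX (MP_be01ff_an), row CLT: the class functions
-/

set_option autoImplicit false

namespace Pool.Agent.BOX.H43

open Set Filter Topology MeasureTheory Pool.Agent.BOX

/-- the first part of `cl2` -/
noncomputable def c1 (f : ℤ → ℂ) (g : G2) : ℂ :=
  if g.1.2 = 0 ∧ Odd g.1.1 ∧ |g.2 0| = |g.1.1| ∧ |g.2 1| = |g.1.1| then
    ((Int.sign (g.2 0 * g.2 1) : ℤ) : ℂ) * f g.1.1 else 0

/-- the second part of `cl2` -/
noncomputable def c2 (f : ℤ → ℂ) (g : G2) : ℂ :=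
  if g.1.1 = 0 ∧ Odd g.1.2 ∧ |g.2 0| = |g.1.2| ∧ |g.2 1| = 2 * |g.1.2| then
    ((Int.sign (g.2 0 * g.2 1) : ℤ) : ℂ) * f g.1.2 else 0

theorem cl2_eq (f1 f2 : ℤ → ℂ) (g : G2) : cl2 f1 f2 g = c1 f1 g + c2 f2 g := rfl

theorem norm_sign (n : ℤ) : ‖((Int.sign n : ℤ) : ℂ)‖ ≤ 1 := by
  rcases lt_trichotomy n 0 with h | h | h
  · rw [Int.sign_eq_neg_one_of_neg h]
    simp
  · rw [h]
    simp
  · rw [Int.sign_eq_one_of_pos h]
    simp

/-- the parametrisation of the supports -/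
def ph (α β γ δ : ℤ) (n : ℤ) : G2 := ((α * n, β * n), ![γ * n, δ * n])

/-- the majorant on one branch -/
noncomputable def HH (f : ℤ → ℂ) (s : ℝ) (α β γ δ : ℤ) (g : G2) : ℝ := by
  classical
  exact if g = ph α β γ δ (γ * g.2 0) then ‖f (γ * g.2 0)‖ * s ^ nr2 g else 0

theorem HH_nonneg (f : ℤ → ℂ) {s : ℝ} (hs : 0 ≤ s) (α β γ δ : ℤ) (g : G2) :
    0 ≤ HH f s α β γ δ g := by
  unfold HH
  split_ifs
  · positivity
  · exact le_refl _

theorem HH_sum (f : ℤ → ℂ) {s r : ℝ} (α β γ δ : ℤ) (hγ : γ * γ = 1)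
    (hb : α.natAbs + β.natAbs + γ.natAbs + δ.natAbs ≤ 4) (hs1 : 1 ≤ s) (hs : s ^ 4 ≤ r)
    (hf : Summable fun n : ℤ => ‖f n‖ * r ^ n.natAbs) : Summable (HH f s α β γ δ) := by
  have hγn : ∀ n : ℤ, γ * (γ * n) = n := fun n => by rw [← mul_assoc, hγ, one_mul]
  have hinj : Function.Injective (ph α β γ δ) := by
    intro n m h
    have h1 : γ * n = γ * m := congrFun (congrArg Prod.snd h) 0
    rw [← hγn n, ← hγn m, h1]
  refine (hinj.summable_iff (f := HH f s α β γ δ) ?_).1 ?_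
  · intro g hg
    unfold HH
    rw [if_neg]
    intro h
    exact hg ⟨_, h.symm⟩
  · have h2 : ∀ n : ℤ, (HH f s α β γ δ ∘ ph α β γ δ) n = ‖f n‖ * s ^ nr2 (ph α β γ δ n) := by
      intro n
      have h3 : (ph α β γ δ n).2 0 = γ * n := rfl
      simp only [Function.comp]
      unfold HH
      rw [h3, hγn, if_pos rfl]
    refine Summable.of_nonneg_of_le (fun n => ?_) (fun n => ?_) hf
    · rw [h2]
      positivity
    · rw [h2]
      refine mul_le_mul_of_nonneg_left ?_ (norm_nonneg _)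
      have h4 : nr2 (ph α β γ δ n) = (α.natAbs + β.natAbs + γ.natAbs + δ.natAbs) * n.natAbs := by
        unfold nr2 ph
        simp only [Matrix.cons_val_zero, Matrix.cons_val_one, Int.natAbs_mul]
        ring
      rw [h4]
      calc s ^ ((α.natAbs + β.natAbs + γ.natAbs + δ.natAbs) * n.natAbs)
          ≤ s ^ (4 * n.natAbs) := pow_le_pow_right₀ hs1 (Nat.mul_le_mul_right _ hb)
        _ = (s ^ 4) ^ n.natAbs := by rw [pow_mul]
        _ ≤ r ^ n.natAbs := pow_le_pow_left₀ (by positivity) hs _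

theorem HH_eq (f : ℤ → ℂ) (s : ℝ) (α β γ δ : ℤ) (p q : ℤ) (k : Fin 2 → ℤ) (n : ℤ)
    (hγ : γ * γ = 1) (h0 : k 0 = γ * n) (h1 : k 1 = δ * n) (hp : p = α * n) (hq : q = β * n) :
    HH f s α β γ δ ((p, q), k) = ‖f n‖ * s ^ nr2 ((p, q), k) := by
  have hn : γ * k 0 = n := by rw [h0, ← mul_assoc, hγ, one_mul]
  have hk : k = ![γ * n, δ * n] := by
    funext i
    fin_cases i
    · exact h0
    · exact h1
  unfold HH
  simp only [hn]
  rw [if_pos]
  unfold ph
  rw [← hk, ← hp, ← hq]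

theorem c1_le (f : ℤ → ℂ) {s : ℝ} (hs : 0 ≤ s) (g : G2) : ‖c1 f g‖ * s ^ nr2 g ≤
    HH f s 1 0 1 1 g + HH f s 1 0 1 (-1) g + HH f s 1 0 (-1) 1 g + HH f s 1 0 (-1) (-1) g := by
  obtain ⟨⟨p, q⟩, k⟩ := g
  have e1 := HH_nonneg f hs 1 0 1 1 ((p, q), k)
  have e2 := HH_nonneg f hs 1 0 1 (-1) ((p, q), k)
  have e3 := HH_nonneg f hs 1 0 (-1) 1 ((p, q), k)
  have e4 := HH_nonneg f hs 1 0 (-1) (-1) ((p, q), k)
  by_cases hc : q = 0 ∧ Odd p ∧ |k 0| = |p| ∧ |k 1| = |p|
  · have hn : ‖c1 f ((p, q), k)‖ * s ^ nr2 ((p, q), k) ≤ ‖f p‖ * s ^ nr2 ((p, q), k) := by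
      refine mul_le_mul_of_nonneg_right ?_ (by positivity)
      unfold c1
      simp only
      rw [if_pos hc, norm_mul]
      calc ‖((Int.sign (k 0 * k 1) : ℤ) : ℂ)‖ * ‖f p‖ ≤ 1 * ‖f p‖ :=
            mul_le_mul_of_nonneg_right (norm_sign _) (norm_nonneg _)
        _ = ‖f p‖ := one_mul _
    obtain ⟨hq, -, h0, h1⟩ := hc
    rcases abs_eq_abs.1 h0 with h0 | h0 <;> rcases abs_eq_abs.1 h1 with h1 | h1
    · have := HH_eq f s 1 0 1 1 p q k p (by norm_num) (by linarith) (by linarith) (by ring)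
        (by linarith)
      linarith
    · have := HH_eq f s 1 0 1 (-1) p q k p (by norm_num) (by linarith) (by linarith) (by ring)
        (by linarith)
      linarith
    · have := HH_eq f s 1 0 (-1) 1 p q k p (by norm_num) (by linarith) (by linarith) (by ring)
        (by linarith)
      linarith
    · have := HH_eq f s 1 0 (-1) (-1) p q k p (by norm_num) (by linarith) (by linarith) (by ring)
        (by linarith)
      linarith
  · have hz : c1 f ((p, q), k) = 0 := by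
      unfold c1
      simp only
      rw [if_neg hc]
    rw [hz, norm_zero, zero_mul]
    positivity

theorem c2_le (f : ℤ → ℂ) {s : ℝ} (hs : 0 ≤ s) (g : G2) : ‖c2 f g‖ * s ^ nr2 g ≤
    HH f s 0 1 1 2 g + HH f s 0 1 1 (-2) g + HH f s 0 1 (-1) 2 g + HH f s 0 1 (-1) (-2) g := by
  obtain ⟨⟨p, q⟩, k⟩ := g
  have e1 := HH_nonneg f hs 0 1 1 2 ((p, q), k)
  have e2 := HH_nonneg f hs 0 1 1 (-2) ((p, q), k)
  have e3 := HH_nonneg f hs 0 1 (-1) 2 ((p, q), k)
  have e4 := HH_nonneg f hs 0 1 (-1) (-2) ((p, q), k)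
  by_cases hc : p = 0 ∧ Odd q ∧ |k 0| = |q| ∧ |k 1| = 2 * |q|
  · have hn : ‖c2 f ((p, q), k)‖ * s ^ nr2 ((p, q), k) ≤ ‖f q‖ * s ^ nr2 ((p, q), k) := by
      refine mul_le_mul_of_nonneg_right ?_ (by positivity)
      unfold c2
      simp only
      rw [if_pos hc, norm_mul]
      calc ‖((Int.sign (k 0 * k 1) : ℤ) : ℂ)‖ * ‖f q‖ ≤ 1 * ‖f q‖ :=
            mul_le_mul_of_nonneg_right (norm_sign _) (norm_nonneg _)
        _ = ‖f q‖ := one_mul _
    obtain ⟨hp, -, h0, h1⟩ := hc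
    have h1' : |k 1| = |2 * q| := by
      rw [abs_mul, abs_of_pos (by norm_num : (0 : ℤ) < 2)]
      exact h1
    rcases abs_eq_abs.1 h0 with h0 | h0 <;> rcases abs_eq_abs.1 h1' with h1 | h1
    · have := HH_eq f s 0 1 1 2 p q k q (by norm_num) (by linarith) (by linarith) (by linarith)
        (by ring)
      linarith
    · have := HH_eq f s 0 1 1 (-2) p q k q (by norm_num) (by linarith) (by linarith)
        (by linarith) (by ring)
      linarith
    · have := HH_eq f s 0 1 (-1) 2 p q k q (by norm_num) (by linarith) (by linarith)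
        (by linarith) (by ring)
      linarith
    · have := HH_eq f s 0 1 (-1) (-2) p q k q (by norm_num) (by linarith) (by linarith)
        (by linarith) (by ring)
      linarith
  · have hz : c2 f ((p, q), k) = 0 := by
      unfold c2
      simp only
      rw [if_neg hc]
    rw [hz, norm_zero, zero_mul]
    positivity

/-- a common fourth root -/
theorem root4 {r : ℝ} (hr : 1 < r) : ∃ s : ℝ, 1 < s ∧ s ^ 4 ≤ r := by
  refine ⟨Real.sqrt (Real.sqrt r), ?_, ?_⟩
  · rw [Real.lt_sqrt (by norm_num), one_pow, Real.lt_sqrt (by norm_num), one_pow]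
    exact hr
  · have h : (Real.sqrt (Real.sqrt r)) ^ 4 = r := by
      have h1 : (Real.sqrt (Real.sqrt r)) ^ 4 = ((Real.sqrt (Real.sqrt r)) ^ 2) ^ 2 := by ring
      rw [h1, Real.sq_sqrt (Real.sqrt_nonneg _), Real.sq_sqrt (by linarith)]
    rw [h]

theorem exd_pos {f : ℤ → ℂ} {r : ℝ} (hr : 1 < r) (h : Summable fun n : ℤ => ‖f n‖ * r ^ n.natAbs) :
    Summable fun n : ℤ => ‖pos f n‖ * r ^ n.natAbs := by
  refine Summable.of_nonneg_of_le (fun n => by positivity) (fun n => ?_) h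
  refine mul_le_mul_of_nonneg_right ?_ (by positivity)
  unfold pos
  split_ifs
  · exact le_refl _
  · rw [norm_zero]
    positivity

theorem exd_two {f1 f2 : ℤ → ℂ} (h1 : Exd f1) (h2 : Exd f2) : ∃ r : ℝ, 1 < r ∧
    (Summable fun n : ℤ => ‖f1 n‖ * r ^ n.natAbs) ∧
      Summable fun n : ℤ => ‖f2 n‖ * r ^ n.natAbs := by
  obtain ⟨r1, hr1, hs1⟩ := h1
  obtain ⟨r2, hr2, hs2⟩ := h2
  refine ⟨min r1 r2, lt_min hr1 hr2, ?_, ?_⟩
  · refine Summable.of_nonneg_of_le (fun n => ?_) (fun n => ?_) hs1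
    · have : 0 ≤ min r1 r2 := le_min (by linarith) (by linarith)
      positivity
    · refine mul_le_mul_of_nonneg_left (pow_le_pow_left₀ ?_ (min_le_left _ _) _) (norm_nonneg _)
      exact le_min (by linarith) (by linarith)
  · refine Summable.of_nonneg_of_le (fun n => ?_) (fun n => ?_) hs2
    · have : 0 ≤ min r1 r2 := le_min (by linarith) (by linarith)
      positivity
    · refine mul_le_mul_of_nonneg_left (pow_le_pow_left₀ ?_ (min_le_right _ _) _) (norm_nonneg _)
      exact le_min (by linarith) (by linarith)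

theorem flp_abs (i : Fin 2) (k : Fin 2 → ℤ) (j : Fin 2) : |flp i k j| = |k j| := by
  change |if j = i then - k j else k j| = |k j|
  split_ifs
  · exact abs_neg _
  · rfl

theorem flp_sign (i : Fin 2) (k : Fin 2 → ℤ) :
    Int.sign (flp i k 0 * flp i k 1) = - Int.sign (k 0 * k 1) := by
  have h : flp i k 0 * flp i k 1 = -(k 0 * k 1) := by
    change (if (0 : Fin 2) = i then - k 0 else k 0) * (if (1 : Fin 2) = i then - k 1 else k 1) = _
    fin_cases i
    · simp
    · simp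
  rw [h, Int.sign_neg]

theorem c1_flp (f : ℤ → ℂ) (p : ℤ × ℤ) (k : Fin 2 → ℤ) (i : Fin 2) :
    c1 f (p, flp i k) = - c1 f (p, k) := by
  unfold c1
  simp only [flp_abs, flp_sign]
  split_ifs
  · push_cast
    ring
  · simp

theorem c2_flp (f : ℤ → ℂ) (p : ℤ × ℤ) (k : Fin 2 → ℤ) (i : Fin 2) :
    c2 f (p, flp i k) = - c2 f (p, k) := by
  unfold c2
  simp only [flp_abs, flp_sign]
  split_ifs
  · push_cast
    ring
  · simp

theorem c1_par {f : ℤ → ℂ} {g : G2} (h : c1 f g ≠ 0) : Par2 g := by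
  unfold c1 at h
  split_ifs at h with hc
  · obtain ⟨h1, h2, h3, h4⟩ := hc
    refine ⟨?_, ?_, ?_⟩
    · rw [h1, add_zero]
      exact h2
    · rcases abs_eq_abs.1 h3 with h | h
      · rw [h]
        exact h2
      · rw [h]
        exact h2.neg
    · rcases abs_eq_abs.1 h4 with h | h
      · rw [h, sub_self]
        exact Even.zero
      · rw [h]
        exact ⟨- g.1.1, by ring⟩
  · exact absurd rfl h

theorem c2_par {f : ℤ → ℂ} {g : G2} (h : c2 f g ≠ 0) : Par2 g := by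
  unfold c2 at h
  split_ifs at h with hc
  · obtain ⟨h1, h2, h3, h4⟩ := hc
    refine ⟨?_, ?_, ?_⟩
    · rw [h1, zero_add]
      exact h2
    · rcases abs_eq_abs.1 h3 with h | h
      · rw [h]
        exact h2
      · rw [h]
        exact h2.neg
    · rw [h1, sub_zero]
      have h5 : Even |g.2 1| := by
        rw [h4]
        exact even_two_mul _
      exact even_abs.1 h5
  · exact absurd rfl h

theorem good_cl {f1 f2 : ℤ → ℂ} (h1 : Exd f1) (h2 : Exd f2) : Good2 (cl2 (pos f1) (pos f2)) := by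
  obtain ⟨r, hr, hs1, hs2⟩ := exd_two h1 h2
  obtain ⟨s, hs, hsr⟩ := root4 hr
  have hp1 := exd_pos hr hs1
  have hp2 := exd_pos hr hs2
  refine ⟨⟨s, hs, ?_⟩, ?_, ?_⟩
  · have a1 := HH_sum (pos f1) 1 0 1 1 (by norm_num) (by decide) hs.le hsr hp1
    have a2 := HH_sum (pos f1) 1 0 1 (-1) (by norm_num) (by decide) hs.le hsr hp1
    have a3 := HH_sum (pos f1) 1 0 (-1) 1 (by norm_num) (by decide) hs.le hsr hp1
    have a4 := HH_sum (pos f1) 1 0 (-1) (-1) (by norm_num) (by decide) hs.le hsr hp1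
    have b1 := HH_sum (pos f2) 0 1 1 2 (by norm_num) (by decide) hs.le hsr hp2
    have b2 := HH_sum (pos f2) 0 1 1 (-2) (by norm_num) (by decide) hs.le hsr hp2
    have b3 := HH_sum (pos f2) 0 1 (-1) 2 (by norm_num) (by decide) hs.le hsr hp2
    have b4 := HH_sum (pos f2) 0 1 (-1) (-2) (by norm_num) (by decide) hs.le hsr hp2
    have hsum := (((a1.add a2).add a3).add a4).add (((b1.add b2).add b3).add b4)
    refine Summable.of_nonneg_of_le (fun g => by positivity) (fun g => ?_) hsum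
    have hs0 : 0 ≤ s := by linarith
    have e1 := c1_le (pos f1) hs0 g
    have e2 := c2_le (pos f2) hs0 g
    have e3 : ‖cl2 (pos f1) (pos f2) g‖ * s ^ nr2 g ≤
        ‖c1 (pos f1) g‖ * s ^ nr2 g + ‖c2 (pos f2) g‖ * s ^ nr2 g := by
      rw [← add_mul, cl2_eq]
      exact mul_le_mul_of_nonneg_right (norm_add_le _ _) (by positivity)
    exact e3.trans (add_le_add e1 e2)
  · intro p k i
    rw [cl2_eq, cl2_eq, c1_flp, c2_flp]
    ring
  · intro g hg
    rw [cl2_eq] at hg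
    by_cases h : c1 (pos f1) g = 0
    · rw [h, zero_add] at hg
      exact c2_par hg
    · exact c1_par h

theorem supp_cl (f1 f2 : ℤ → ℂ) (g : G2) (hg : g ∉ R2) : cl2 (pos f1) (pos f2) g = 0 := by
  have h1 : c1 (pos f1) g = 0 := by
    unfold c1
    split_ifs with hc
    · obtain ⟨a1, a2, a3, a4⟩ := hc
      have h2 : ¬ 0 < g.1.1 := by
        intro h
        refine hg (Or.inl ⟨a1, h, a2, ?_, ?_⟩)
        · rw [a3, abs_of_pos h]
        · rw [a4, abs_of_pos h]
      unfold pos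
      rw [if_neg h2, mul_zero]
    · rfl
  have h2 : c2 (pos f2) g = 0 := by
    unfold c2
    split_ifs with hc
    · obtain ⟨a1, a2, a3, a4⟩ := hc
      have h2 : ¬ 0 < g.1.2 := by
        intro h
        refine hg (Or.inr ⟨a1, h, a2, ?_, ?_⟩)
        · rw [a3, abs_of_pos h]
        · rw [a4, abs_of_pos h]
      unfold pos
      rw [if_neg h2, mul_zero]
    · rfl
  rw [cl2_eq, h1, h2, add_zero]

theorem pos_hat (f : ℤ → ℂ) (n : ℤ) : pos f n + (starRingEnd ℂ) (pos f (-n)) = hat f n := by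
  unfold pos hat
  rcases lt_trichotomy n 0 with h | h | h
  · rw [if_neg (by omega), if_pos (by omega), if_neg (by omega), if_pos h, zero_add]
  · rw [h]
    simp
  · rw [if_pos h, if_neg (by omega), if_pos h, map_zero, add_zero]

theorem vp_c1 (f : ℤ → ℂ) (g : G2) :
    c1 (pos f) g + (starRingEnd ℂ) (c1 (pos f) (-g.1, g.2)) = c1 (hat f) g := by
  unfold c1
  simp only [Prod.fst_neg, Prod.snd_neg, neg_eq_zero, abs_neg, odd_neg]
  split_ifs with h
  · rw [map_mul, map_intCast, ← mul_add, pos_hat]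
  · simp

theorem vp_c2 (f : ℤ → ℂ) (g : G2) :
    c2 (pos f) g + (starRingEnd ℂ) (c2 (pos f) (-g.1, g.2)) = c2 (hat f) g := by
  unfold c2
  simp only [Prod.fst_neg, Prod.snd_neg, neg_eq_zero, abs_neg, odd_neg]
  split_ifs with h
  · rw [map_mul, map_intCast, ← mul_add, pos_hat]
  · simp

theorem vp_cl (f1 f2 : ℤ → ℂ) :
    Vp (fun g => 2 * cl2 (pos f1) (pos f2) g) = cl2 (hat f1) (hat f2) := by
  funext g
  unfold Vp
  simp only
  rw [map_mul, cl2_eq, cl2_eq, cl2_eq, ← vp_c1, ← vp_c2, map_add]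
  have h2 : (starRingEnd ℂ) (2 : ℂ) = 2 := by
    exact Complex.conj_ofNat 2
  rw [h2]
  ring

theorem exd_F {F : G2 → ℂ} (hF : Good2 F) (φ : ℤ → G2) (hφ : Function.Injective φ)
    (hn : ∀ n, n.natAbs ≤ nr2 (φ n)) : Exd (fun n => F (φ n)) := by
  obtain ⟨⟨r, hr, hs⟩, -, -⟩ := hF
  refine ⟨r, hr, ?_⟩
  have h1 := hs.comp_injective hφ
  refine Summable.of_nonneg_of_le (fun n => ?_) (fun n => ?_) h1
  · have : 0 < r := by linarith
    positivity
  · exact mul_le_mul_of_nonneg_left (pow_le_pow_right₀ hr.le (hn n)) (norm_nonneg _)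

theorem four {F : G2 → ℂ} (hF : ∀ p k, ∀ i : Fin 2, F (p, flp i k) = - F (p, k)) (p : ℤ × ℤ)
    (k : Fin 2 → ℤ) (a b : ℤ) (ha : 0 < a) (hb : 0 < b) (h0 : |k 0| = a) (h1 : |k 1| = b) :
    F (p, k) = ((Int.sign (k 0 * k 1) : ℤ) : ℂ) * F (p, ![a, b]) := by
  have hk : k = ![k 0, k 1] := by
    funext i
    fin_cases i <;> rfl
  have hab : 0 < a * b := mul_pos ha hb
  have f0 : flp 0 ![a, b] = ![-a, b] := by
    funext i
    fin_cases i <;> rfl
  have f1 : flp 1 ![a, b] = ![a, -b] := by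
    funext i
    fin_cases i <;> rfl
  have f2 : flp 0 ![a, -b] = ![-a, -b] := by
    funext i
    fin_cases i <;> rfl
  rcases (abs_eq ha.le).1 h0 with e0 | e0 <;> rcases (abs_eq hb.le).1 h1 with e1 | e1
  · rw [hk, e0, e1]
    simp only [Matrix.cons_val_zero, Matrix.cons_val_one]
    rw [Int.sign_eq_one_of_pos hab]
    simp
  · rw [hk, e0, e1]
    simp only [Matrix.cons_val_zero, Matrix.cons_val_one]
    rw [mul_neg, Int.sign_neg, Int.sign_eq_one_of_pos hab, ← f1, hF]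
    push_cast
    ring
  · rw [hk, e0, e1]
    simp only [Matrix.cons_val_zero, Matrix.cons_val_one]
    rw [neg_mul, Int.sign_neg, Int.sign_eq_one_of_pos hab, ← f0, hF]
    push_cast
    ring
  · rw [hk, e0, e1]
    simp only [Matrix.cons_val_zero, Matrix.cons_val_one]
    rw [neg_mul_neg, Int.sign_eq_one_of_pos hab, ← f2, hF, ← f1, hF]
    push_cast
    ring

theorem clt : CltStmt := by
  refine ⟨?_, ?_⟩
  · intro f1 f2 h1 h2 _ _
    exact ⟨good_cl h1 h2, supp_cl f1 f2, vp_cl f1 f2⟩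
  · intro F hF
    refine ⟨?_, ?_, ?_⟩
    · refine exd_F hF (fun n => ((n, 0), ![n, n])) ?_ ?_
      · intro n m h
        exact congrArg (fun g : G2 => g.1.1) h
      · intro n
        unfold nr2
        simp only
        omega
    · refine exd_F hF (fun n => ((0, n), ![n, 2 * n])) ?_ ?_
      · intro n m h
        exact congrArg (fun g : G2 => g.1.2) h
      · intro n
        unfold nr2
        simp only
        omega
    · intro g hg
      obtain ⟨⟨p, q⟩, k⟩ := g
      refine ⟨?_, ?_⟩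
      · intro hq
        simp only at hq
        rcases hg with ⟨-, hp, -, a3, a4⟩ | ⟨-, hq', -⟩
        · subst hq
          exact four hF.2.1 (p, 0) k p p hp hp a3 a4
        · exact absurd hq (ne_of_gt hq')
      · intro hp
        simp only at hp
        rcases hg with ⟨-, hp', -⟩ | ⟨-, hq, -, a3, a4⟩
        · exact absurd hp (ne_of_gt hp')
        · subst hp
          refine four hF.2.1 (0, q) k q (2 * q) hq ?_ a3 a4
          simp only at hq
          omega

end Pool.Agent.BOX.H43
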